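import Pool.Agent.Q161.ESG.Stm6

/-!
# Project ESG (helper161), part 3: the blocks
-/

set_option autoImplicit false

namespace Pool.Agent.Q166.ESG

open Polynomial NumberField IsDedekindDomain Finset
open Pool.Agent.Q161.ESM Pool.Agent.Q161.ESG

open scoped Classical

/-- the embeddings over a given embedding of the base field -/
theorem card_ext (Bs L K : Type) [Field Bs] [NumberField Bs] [Field L] [NumberField L]
    [Algebra Bs L] [Field K] [NumberField K] [IsGalois ℚ K] (ι0 : L →+* K) (τ : Bs →+* K) :
    (univ.filter (fun ι : L →+* K => ι.comp (algebraMap Bs L) = τ)).card =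
      Module.finrank Bs L := by
  have hfin : Module.Finite Bs L := Module.Finite.right ℚ Bs L
  let _ : Algebra Bs K := τ.toAlgebra
  have hτ : ∀ x : Bs, algebraMap Bs K x = τ x := fun _ => rfl
  have hst : IsScalarTower ℚ Bs K := IsScalarTower.of_algebraMap_eq' (Subsingleton.elim _ _)
  have hsp : ∀ x : L, ((minpoly Bs x).map (algebraMap Bs K)).Splits := by
    intro x
    have hx : IsIntegral ℚ x := Algebra.IsIntegral.isIntegral x
    have h1 : ((minpoly ℚ x).map (algebraMap ℚ K)).Splits := by
      have h2 : minpoly ℚ x = minpoly ℚ (ι0 x) := by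
        have := minpoly.algHom_eq (RingHom.toRatAlgHom ι0) (RingHom.injective ι0) x
        exact this.symm
      rw [h2]
      exact Normal.splits inferInstance (ι0 x)
    have h3 : minpoly Bs x ∣ (minpoly ℚ x).map (algebraMap ℚ Bs) :=
      minpoly.dvd_map_of_isScalarTower ℚ Bs x
    have h4 : (minpoly Bs x).map (algebraMap Bs K) ∣ (minpoly ℚ x).map (algebraMap ℚ K) := by
      have := Polynomial.map_dvd (algebraMap Bs K) h3
      rw [Polynomial.map_map, ← IsScalarTower.algebraMap_eq] at this
      exact this
    refine Polynomial.Splits.of_dvd h1 ?_ h4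
    exact (Polynomial.map_ne_zero_iff (algebraMap ℚ K).injective).2 (minpoly.ne_zero hx)
  have pb := Field.powerBasisOfFiniteOfSeparable Bs L
  have h5 := AlgHom.natCard_of_powerBasis (L := K) pb (Algebra.IsSeparable.isSeparable Bs pb.gen)
    (hsp pb.gen)
  rw [← pb.finrank] at h5
  rw [← h5, ← Fintype.card_subtype, ← Nat.card_eq_fintype_card]
  refine Nat.card_congr ?_
  exact
    { toFun := fun ι => { ι.1 with commutes' := fun x => congrArg (fun f : Bs →+* K => f x) ι.2 }
      invFun := fun f => ⟨f.toRingHom, by ext x; exact f.commutes x⟩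
      left_inv := fun _ => rfl
      right_inv := fun _ => rfl }

theorem dat : S_DAT := by
  intro Bs L _ _ _ _ _ p th hp hroot hdeg hodd K _ _ _ hemb
  obtain ⟨ι0⟩ := hemb
  refine ⟨⟨ι0⟩, ?_, ?_⟩
  · intro τ
    rw [card_ext Bs L K ι0 τ, hdeg]
    exact hodd
  · intro ι ι' h1 h2
    have hfin : Module.Finite Bs L := Module.Finite.right ℚ Bs L
    have hmin : (minpoly Bs (th : L)).natDegree = Module.finrank Bs L := by
      rw [← minpoly.eq_of_irreducible hp hroot, hdeg]
      rw [Polynomial.natDegree_mul_C]
      exact inv_ne_zero (Polynomial.leadingCoeff_ne_zero.2 hp.ne_zero)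
    have htop : IntermediateField.adjoin Bs {(th : L)} = ⊤ :=
      (Field.primitive_element_iff_minpoly_natDegree_eq Bs (th : L)).2 hmin
    let S : IntermediateField Bs L :=
      Subfield.toIntermediateField (RingHom.eqLocusField ι ι') (fun x =>
        congrArg (fun f : Bs →+* K => f x) h1)
    have hS : S = ⊤ := by
      rw [eq_top_iff, ← htop, IntermediateField.adjoin_le_iff, Set.singleton_subset_iff]
      exact h2
    ext x
    have : x ∈ S := by rw [hS]; exact IntermediateField.mem_top
    exact this

end Pool.Agent.Q166.ESG
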