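import Pool.Agent.Q161.ESG.Stm6

/-!
# Project ESG (helper161), part 3: a sum of semisimple modules is semisimple
-/

set_option autoImplicit false

namespace Pool.Agent.Q166.ESG

open Pool.Agent.Q161.ESM Pool.Agent.Q161.ESG

theorem gst_sup {G V : Type} [Group G] [AddCommGroup V] [DistribMulAction G V]
    {A B : AddSubgroup V} (hA : GSt G A) (hB : GSt G B) : GSt G (A ⊔ B) := by
  intro g v hv
  rw [AddSubgroup.mem_sup] at hv ⊢
  obtain ⟨a, ha, b, hb, rfl⟩ := hv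
  exact ⟨g • a, hA g a ha, g • b, hB g b hb, (smul_add g a b).symm⟩

theorem gst_inf {G V : Type} [Group G] [AddCommGroup V] [DistribMulAction G V]
    {A B : AddSubgroup V} (hA : GSt G A) (hB : GSt G B) : GSt G (A ⊓ B) := by
  intro g v hv
  rw [AddSubgroup.mem_inf] at hv ⊢
  exact ⟨hA g v hv.1, hB g v hv.2⟩

theorem sumg : S_SUMG := by
  intro G V _ _ _ _ ι _ U _ hU hss htop W hW
  let s : Set (AddSubgroup V) := {W' | GSt G W' ∧ W ⊓ W' = ⊥}
  have hne : s.Nonempty := by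
    refine ⟨⊥, ?_, inf_bot_eq W⟩
    intro g v hv
    rw [AddSubgroup.mem_bot] at hv ⊢
    rw [hv, smul_zero]
  obtain ⟨W', hmax⟩ := (Set.toFinite s).exists_maximal hne
  obtain ⟨hW', hWW'⟩ : GSt G W' ∧ W ⊓ W' = ⊥ := hmax.1
  refine ⟨W', hW', disjoint_iff.2 hWW', codisjoint_iff.2 ?_⟩
  rw [eq_top_iff, ← htop, iSup_le_iff]
  intro i
  obtain ⟨C, hCU, hC, h1, h2⟩ := hss i ((W ⊔ W') ⊓ U i) inf_le_right
    (gst_inf (gst_sup hW hW') (hU i))
  -- `C` meets `W ⊔ W'` trivially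
  have h3 : ∀ c ∈ C, c ∈ W ⊔ W' → c = 0 := by
    intro c hc hc'
    have : c ∈ (W ⊔ W') ⊓ U i ⊓ C := by
      rw [AddSubgroup.mem_inf, AddSubgroup.mem_inf]
      exact ⟨⟨hc', hCU hc⟩, hc⟩
    rw [h1, AddSubgroup.mem_bot] at this
    exact this
  have h4 : W' ⊔ C ∈ s := by
    refine ⟨gst_sup hW' hC, ?_⟩
    rw [eq_bot_iff]
    intro v hv
    rw [AddSubgroup.mem_inf, AddSubgroup.mem_sup] at hv
    obtain ⟨hvW, a, ha, c, hc, hac⟩ := hv
    have hc0 : c = 0 := by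
      apply h3 c hc
      have : c = v - a := by rw [← hac]; abel
      rw [this]
      exact sub_mem (AddSubgroup.mem_sup_left hvW) (AddSubgroup.mem_sup_right ha)
    rw [hc0, add_zero] at hac
    rw [← hWW', AddSubgroup.mem_inf]
    exact ⟨hvW, hac ▸ ha⟩
  have h5 : W' ⊔ C ≤ W' := hmax.2 h4 le_sup_left
  have h6 : C = ⊥ := by
    rw [eq_bot_iff]
    intro c hc
    rw [AddSubgroup.mem_bot]
    exact h3 c hc (AddSubgroup.mem_sup_right (h5 (AddSubgroup.mem_sup_right hc)))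
  rw [h6, sup_bot_eq] at h2
  rw [← h2]
  exact inf_le_left

end Pool.Agent.Q166.ESG
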